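import Pool.Agent.helper16.EXC.Spec3

/-!
# Project EXC (MP_561ff4_al), block 3, row `en3:ZAL`
-/

set_option autoImplicit false

open Finset

namespace Pool.Agent.EXC

theorem ZAL_iter (F : Type) [Field F] (σ : F ≃+* F) (v : F) (hv : v ≠ 0) (k : ℕ) : (⇑σ)^[k] v ≠ 0 := by
  induction k with
  | zero => exact hv
  | succ k ih =>
    rw [Function.iterate_succ_apply']
    exact fun h => ih ((map_eq_zero_iff σ σ.injective).1 h)

theorem ZAL_step (F : Type) [Field F] (σ : F ≃+* F) (v : F) (hv : v ≠ 0) (k : ℕ) :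
    ∃ u : F, u ≠ 0 ∧ u * σ u = v * (if Even k then ((⇑σ)^[k] v)⁻¹ else (⇑σ)^[k] v) := by
  induction k with
  | zero =>
    refine ⟨1, one_ne_zero, ?_⟩
    rw [if_pos (Nat.even_iff.2 rfl), map_one, mul_one, Function.iterate_zero_apply, mul_inv_cancel₀ hv]
  | succ k ih =>
    obtain ⟨u, hu, h⟩ := ih
    have hk := ZAL_iter F σ v hv k
    have hk' := ZAL_iter F σ v hv (k + 1)
    rw [Function.iterate_succ_apply'] at hk'
    by_cases he : Even k
    · rw [if_pos he] at h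
      refine ⟨u * (⇑σ)^[k] v, mul_ne_zero hu hk, ?_⟩
      rw [if_neg (by rw [Nat.even_add_one, not_not]; exact he), Function.iterate_succ_apply', map_mul]
      have h1 : u * (⇑σ)^[k] v * (σ u * σ ((⇑σ)^[k] v)) = u * σ u * ((⇑σ)^[k] v * σ ((⇑σ)^[k] v)) := by ring
      rw [h1, h, mul_assoc, ← mul_assoc (((⇑σ)^[k] v)⁻¹), inv_mul_cancel₀ hk, one_mul]
    · rw [if_neg he] at h
      refine ⟨u * ((⇑σ)^[k] v)⁻¹, mul_ne_zero hu (inv_ne_zero hk), ?_⟩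
      rw [if_pos (by rw [Nat.even_add_one]; exact he), Function.iterate_succ_apply', map_mul, map_inv₀]
      have h1 : u * ((⇑σ)^[k] v)⁻¹ * (σ u * (σ ((⇑σ)^[k] v))⁻¹) = u * σ u * (((⇑σ)^[k] v)⁻¹ * (σ ((⇑σ)^[k] v))⁻¹) := by ring
      rw [h1, h, mul_assoc, ← mul_assoc ((⇑σ)^[k] v), mul_inv_cancel₀ hk, one_mul]

theorem ZAL : ZAL_stmt := by
  intro F _ σ ℓ hℓ hσ v hv
  obtain ⟨u, hu, h⟩ := ZAL_step F σ v hv ℓ
  refine ⟨u, hu, ?_⟩
  rw [h, if_neg (Nat.not_even_iff_odd.2 hℓ), hσ v, sq]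

end Pool.Agent.EXC
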